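import Pool.Agent.Lib.MP_943dad_ag.SH.Gen

/-!
Handles with entries in an abelian normal subgroup whose normal subgroups form a chain: all but one
can be killed.
-/

namespace Pool.Agent.HMv

universe u v

open Item

section Chief

variable {G : Type u} [Group G]

/-- The subgroup generated by the conjugates of `y` by the elements of `gen T`. -/
def orb (T : List (Item G)) (y : G) : Subgroup G :=
  Subgroup.closure {z | ∃ u ∈ gen T, z = u * y * u⁻¹}

/-- `N` is commutative. -/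
def Comm (N : Subgroup G) : Prop := ∀ a ∈ N, ∀ b ∈ N, a * b = b * a

theorem add2 {N : Subgroup G} (hN : Comm N) {x1 y1 x2 y2 : G} (h1 : x1 ∈ N) (h2 : y1 ∈ N)
    (h3 : x2 ∈ N) (h4 : y2 ∈ N) (T : List (Item G)) :
    Mv (hd x1 y1 :: hd x2 y2 :: T) (hd (x1 * y2) y1 :: hd (x2 * y1) y2 :: T) := by
  have e1 := Mv.dd x1 y1 x2 y2 1 T
  have z : y1⁻¹ * x2 * y2 * x2⁻¹ = y1⁻¹ * y2 := by
    rw [mul_assoc y1⁻¹, hN x2 h3 y2 h4]
    group
  rw [z, zpow_one, zpow_neg, zpow_one] at e1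
  have c1 : y1⁻¹ * y2 = y2 * y1⁻¹ := hN _ (N.inv_mem h2) _ h4
  have z2 : (y1⁻¹ * y2)⁻¹ * y1 * (y1⁻¹ * y2) = y1 := by
    have : (y1⁻¹ * y2)⁻¹ * y1 = y1 * (y1⁻¹ * y2)⁻¹ :=
      hN _ (N.inv_mem (N.mul_mem (N.inv_mem h2) h4)) _ h2
    rw [this]
    group
  rw [z2] at e1
  have e2 := Mv.twist (x1 * (y1⁻¹ * y2)) y1 1 (hd ((y1⁻¹ * y2)⁻¹ * x2) y2 :: T)
  have z3 : x1 * (y1⁻¹ * y2) * y1 ^ (1 : ℤ) = x1 * y2 := by
    rw [zpow_one, c1]
    group
  rw [z3] at e2
  have e3 := Mv.cons (hd (x1 * y2) y1) (Mv.twist ((y1⁻¹ * y2)⁻¹ * x2) y2 1 T)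
  have z4 : (y1⁻¹ * y2)⁻¹ * x2 * y2 ^ (1 : ℤ) = x2 * y1 := by
    rw [zpow_one, mul_assoc, hN x2 h3 y2 h4, mul_inv_rev, inv_inv]
    have : y2⁻¹ * y1 * (y2 * x2) = y2⁻¹ * (y1 * y2) * x2 := by group
    rw [this, hN y1 h2 y2 h4]
    have : y2⁻¹ * (y2 * y1) * x2 = y1 * x2 := by group
    rw [this, hN y1 h2 x2 h3]
  rw [z4] at e3
  exact e1.trans (e2.trans e3)

theorem gen_cons_le (p : Item G) (T : List (Item G)) : gen T ≤ gen (p :: T) :=
  gen_mono fun _ h => List.mem_cons_of_mem _ h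

theorem add2u {N : Subgroup G} [N.Normal] (hN : Comm N) {x1 y1 x2 y2 : G} (h1 : x1 ∈ N)
    (h2 : y1 ∈ N) (h3 : x2 ∈ N) (h4 : y2 ∈ N) (T : List (Item G)) {u : G} (hu : u ∈ gen T) :
    Mv (hd x1 y1 :: hd x2 y2 :: T)
      (hd (x1 * (u⁻¹ * y2 * u)) y1 :: hd (x2 * (u * y1 * u⁻¹)) y2 :: T) := by
  have nc : ∀ a ∈ N, ∀ g : G, g * a * g⁻¹ ∈ N := fun a ha g => Subgroup.Normal.conj_mem inferInstance a ha g
  have e1 := flat_conj (gen_cons_le (hd x2 y2) T hu) (show Commute x1 y1 from hN _ h1 _ h2)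
  have e2 := add2 hN (nc x1 h1 u) (nc y1 h2 u) h3 h4 T
  have h5 : u * x1 * u⁻¹ * y2 ∈ N := N.mul_mem (nc x1 h1 u) h4
  have h6 : u * y1 * u⁻¹ ∈ N := nc y1 h2 u
  have e3 := flat_conj ((gen (hd (x2 * (u * y1 * u⁻¹)) y2 :: T)).inv_mem
    (gen_cons_le (hd (x2 * (u * y1 * u⁻¹)) y2) T hu))
    (show Commute (u * x1 * u⁻¹ * y2) (u * y1 * u⁻¹) from hN _ h5 _ h6)
  have z1 : u⁻¹ * (u * x1 * u⁻¹ * y2) * u⁻¹⁻¹ = x1 * (u⁻¹ * y2 * u) := by group
  have z2 : u⁻¹ * (u * y1 * u⁻¹) * u⁻¹⁻¹ = y1 := by group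
  rw [z1, z2] at e3
  exact e1.trans (e2.trans e3)

theorem add_orb {N : Subgroup G} [N.Normal] (hN : Comm N) {y1 y2 : G}
    (h2 : y1 ∈ N) (h4 : y2 ∈ N) (T : List (Item G)) {a : G} (ha : a ∈ orb T y1) :
    ∃ b ∈ N, a ∈ N ∧ ∀ x1 ∈ N, ∀ x2 ∈ N, Mv (hd x1 y1 :: hd x2 y2 :: T)
      (hd (x1 * b) y1 :: hd (x2 * a) y2 :: T) := by
  unfold orb at ha
  induction ha using Subgroup.closure_induction with
  | mem z hz =>
    obtain ⟨u, hu, rfl⟩ := hz
    refine ⟨u⁻¹ * y2 * u, ?_, Subgroup.Normal.conj_mem inferInstance _ h2 u, fun x1 h1 x2 h3 =>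
      add2u hN h1 h2 h3 h4 T hu⟩
    have := Subgroup.Normal.conj_mem (H := N) inferInstance _ h4 u⁻¹
    rwa [inv_inv] at this
  | one =>
    refine ⟨1, N.one_mem, N.one_mem, fun x1 _ x2 _ => ?_⟩
    rw [mul_one, mul_one]
    exact Mv.refl _
  | mul a a' _ _ hx hy =>
    obtain ⟨b, hb, ha, h⟩ := hx
    obtain ⟨b', hb', ha', h'⟩ := hy
    refine ⟨b * b', N.mul_mem hb hb', N.mul_mem ha ha', fun x1 h1 x2 h3 => ?_⟩
    rw [← mul_assoc, ← mul_assoc]
    exact (h x1 h1 x2 h3).trans (h' _ (N.mul_mem h1 hb) _ (N.mul_mem h3 ha))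
  | inv a _ hx =>
    obtain ⟨b, hb, ha, h⟩ := hx
    refine ⟨b⁻¹, N.inv_mem hb, N.inv_mem ha, fun x1 h1 x2 h3 => ?_⟩
    have h' := h (x1 * b⁻¹) (N.mul_mem h1 (N.inv_mem hb)) (x2 * a⁻¹) (N.mul_mem h3 (N.inv_mem ha))
    rw [inv_mul_cancel_right, inv_mul_cancel_right] at h'
    exact h'.symm

theorem kill2 {N : Subgroup G} [N.Normal] (hN : Comm N) {x1 y1 x2 y2 : G} (h1 : x1 ∈ N)
    (h2 : y1 ∈ N) (h3 : x2 ∈ N) (h4 : y2 ∈ N) (T : List (Item G))
    (hx : x2 ∈ orb T y1) (hy : y2 ∈ orb T y1) :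
    ∃ x ∈ N, Mv (hd x1 y1 :: hd x2 y2 :: T) (hd x y1 :: hd 1 1 :: T) := by
  obtain ⟨b, hb, _, h⟩ := add_orb hN h2 h4 T ((orb T y1).inv_mem hx)
  obtain ⟨b', hb', _, h'⟩ := add_orb hN h2 N.one_mem T ((orb T y1).inv_mem hy)
  have e1 := h x1 h1 x2 h3
  rw [mul_inv_cancel] at e1
  have e2 := Mv.cons (hd (x1 * b) y1) (Mv.rot 1 y2 T)
  have z : (1 : G) * y2 * 1⁻¹ = y2 := by group
  rw [z, inv_one] at e2
  have e3 := h' (x1 * b) (N.mul_mem h1 hb) y2 h4
  rw [mul_inv_cancel] at e3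
  exact ⟨x1 * b * b', N.mul_mem (N.mul_mem h1 hb) hb', e1.trans (e2.trans e3)⟩

theorem orb_le {N : Subgroup G} [N.Normal] {y : G} (hy : y ∈ N) (T : List (Item G)) :
    orb T y ≤ N := by
  unfold orb
  rw [Subgroup.closure_le]
  rintro z ⟨u, _, rfl⟩
  exact Subgroup.Normal.conj_mem inferInstance _ hy u

theorem orb_conj {T : List (Item G)} {y u h : G} (hu : u ∈ gen T) (hh : h ∈ orb T y) :
    u * h * u⁻¹ ∈ orb T y := by
  unfold orb at hh
  induction hh using Subgroup.closure_induction with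
  | mem z hz =>
    obtain ⟨w, hw, rfl⟩ := hz
    refine Subgroup.subset_closure ⟨u * w, (gen T).mul_mem hu hw, ?_⟩
    group
  | one =>
    rw [mul_one, mul_inv_cancel]
    exact (orb T y).one_mem
  | mul a b _ _ ha hb =>
    have := (orb T y).mul_mem ha hb
    have e : u * a * u⁻¹ * (u * b * u⁻¹) = u * (a * b) * u⁻¹ := by group
    rwa [e] at this
  | inv a _ ha =>
    have := (orb T y).inv_mem ha
    have e : (u * a * u⁻¹)⁻¹ = u * a⁻¹ * u⁻¹ := by group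
    rwa [e] at this

theorem ncl_le_orb {N : Subgroup G} [N.Normal] (hN : Comm N) {y : G} (hy : y ∈ N)
    (D : List (Item G)) (hD : ∀ p ∈ D, ∀ z ∈ p.ent, z ∈ N) (T : List (Item G))
    (hT : gen (D ++ T) = ⊤) : Subgroup.normalClosure {y} ≤ orb T y := by
  let K : Subgroup G :=
    { carrier := {g | ∀ h ∈ orb T y, g * h * g⁻¹ ∈ orb T y ∧ g⁻¹ * h * g ∈ orb T y}
      one_mem' := fun h hh => by
        simpa using hh
      mul_mem' := fun {a b} ha hb h hh => by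
        have h1 := (ha _ (hb h hh).1).1
        have h2 := (hb _ (ha h hh).2).2
        have e1 : a * (b * h * b⁻¹) * a⁻¹ = a * b * h * (a * b)⁻¹ := by group
        have e2 : b⁻¹ * (a⁻¹ * h * a) * b = (a * b)⁻¹ * h * (a * b) := by group
        rw [e1] at h1
        rw [e2] at h2
        exact ⟨h1, h2⟩
      inv_mem' := fun {a} ha h hh => by
        rw [inv_inv]
        exact ⟨(ha h hh).2, (ha h hh).1⟩ }
  have hK : K = ⊤ := by
    rw [eq_top_iff, ← hT]
    apply gen_le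
    intro p hp z hz
    rcases List.mem_append.1 hp with hp | hp
    · have hzN := hD p hp z hz
      intro h hh
      have h1 := orb_le hy T hh
      have e1 : z * h * z⁻¹ = h := by
        rw [hN z hzN h h1, mul_inv_cancel_right]
      have e2 : z⁻¹ * h * z = h := by
        rw [hN z⁻¹ (N.inv_mem hzN) _ h1, inv_mul_cancel_right]
      rw [e1, e2]
      exact ⟨hh, hh⟩
    · have hzT : z ∈ gen T := ent_mem_gen hp hz
      intro h hh
      refine ⟨orb_conj hzT hh, ?_⟩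
      have := orb_conj ((gen T).inv_mem hzT) hh
      rwa [inv_inv] at this
  have hnorm : (orb T y).Normal := by
    constructor
    intro h hh g
    have hg : g ∈ K := by
      rw [hK]
      trivial
    exact (hg h hh).1
  apply Subgroup.normalClosure_le_normal
  rw [Set.singleton_subset_iff]
  refine Subgroup.subset_closure ⟨1, (gen T).one_mem, ?_⟩
  group

/-- The normal subgroups of `G` inside `N` form a chain. -/
def Chain (N : Subgroup G) : Prop :=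
  ∀ a ∈ N, ∀ b ∈ N, a ∈ Subgroup.normalClosure {b} ∨ b ∈ Subgroup.normalClosure {a}

theorem ncl_mono {a b : G} (h : a ∈ Subgroup.normalClosure {b}) :
    Subgroup.normalClosure {a} ≤ Subgroup.normalClosure ({b} : Set G) := by
  apply Subgroup.normalClosure_le_normal
  rw [Set.singleton_subset_iff]
  exact h

theorem rot_chain {N : Subgroup G} (hN : Comm N) (hc : Chain N) {x y : G} (hx : x ∈ N) (hy : y ∈ N) :
    ∃ x' ∈ N, ∃ y' ∈ N, x' ∈ Subgroup.normalClosure {y'} ∧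
      ∀ L : List (Item G), Mv (hd x y :: L) (hd x' y' :: L) := by
  rcases hc x hx y hy with h | h
  · exact ⟨x, hx, y, hy, h, fun L => Mv.refl _⟩
  · refine ⟨y, hy, x⁻¹, N.inv_mem hx, ?_, fun L => ?_⟩
    · have h1 : x ∈ Subgroup.normalClosure ({x⁻¹} : Set G) := by
        have := (Subgroup.normalClosure ({x⁻¹} : Set G)).inv_mem
          (Subgroup.subset_normalClosure (Set.mem_singleton x⁻¹))
        rwa [inv_inv] at this
      exact ncl_mono h1 h
    · have h1 := Mv.rot x y L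
      have e : x * y * x⁻¹ = y := by rw [hN x hx y hy, mul_inv_cancel_right]
      rwa [e] at h1

theorem kill2' {N : Subgroup G} [N.Normal] (hN : Comm N) (hc : Chain N) {x1 y1 x2 y2 : G}
    (h1 : x1 ∈ N) (h2 : y1 ∈ N) (h3 : x2 ∈ N) (h4 : y2 ∈ N) (T : List (Item G))
    (hT : gen (hd x1 y1 :: hd x2 y2 :: T) = ⊤) :
    ∃ x ∈ N, ∃ y ∈ N, Mv (hd x1 y1 :: hd x2 y2 :: T) (hd x y :: hd 1 1 :: T) := by
  obtain ⟨x1', h1', y1', h2', hx1, m1⟩ := rot_chain hN hc h1 h2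
  obtain ⟨x2', h3', y2', h4', hx2, m2⟩ := rot_chain hN hc h3 h4
  have m := (m1 (hd x2 y2 :: T)).trans (Mv.cons _ (m2 T))
  have hent : ∀ {a b c d : G}, a ∈ N → b ∈ N → c ∈ N → d ∈ N →
      ∀ p ∈ [hd a b, hd c d], ∀ z ∈ p.ent, z ∈ N := by
    intro a b c d ha hb hc' hd' p hp z hz
    rcases List.mem_cons.1 hp with rfl | hp
    · rcases hz with rfl | hz
      · exact ha
      · have : z = b := hz
        rw [this]
        exact hb
    · rw [List.mem_singleton] at hp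
      subst hp
      rcases hz with rfl | hz
      · exact hc'
      · have : z = d := hz
        rw [this]
        exact hd'
  rcases hc y2' h4' y1' h2' with h | h
  · have hg : gen ([hd x1' y1', hd x2' y2'] ++ T) = ⊤ := by
      rw [← hT]
      exact m.gen_eq.symm
    have ho := ncl_le_orb hN h2' [hd x1' y1', hd x2' y2'] (hent h1' h2' h3' h4') T hg
    obtain ⟨x, hx, e⟩ := kill2 hN h1' h2' h3' h4' T (ho (ncl_mono h hx2)) (ho h)
    exact ⟨x, hx, y1', h2', m.trans e⟩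
  · have m' := m.trans (flat_hd (show Commute x1' y1' from hN _ h1' _ h2') x2' y2' T)
    have hg : gen ([hd x2' y2', hd x1' y1'] ++ T) = ⊤ := by
      rw [← hT]
      exact m'.gen_eq.symm
    have ho := ncl_le_orb hN h4' [hd x2' y2', hd x1' y1'] (hent h3' h4' h1' h2') T hg
    obtain ⟨x, hx, e⟩ := kill2 hN h3' h4' h1' h2' T (ho (ncl_mono h hx1)) (ho h)
    exact ⟨x, hx, y2', h4', m'.trans e⟩

theorem chain_step {N : Subgroup G} [N.Normal] (hN : Comm N) (hc : Chain N) :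
    ∀ (m : ℕ) (D : List (G × G)), D.length = m + 1 → (∀ p ∈ D, p.1 ∈ N ∧ p.2 ∈ N) →
      ∀ T : List (Item G), gen (hds D ++ T) = ⊤ →
        ∃ d : G × G, d.1 ∈ N ∧ d.2 ∈ N ∧
          Mv (hds D ++ T) (hd d.1 d.2 :: (hds (List.replicate m (1, 1)) ++ T))
  | 0, D, hD, hDN, T, _ => by
    obtain ⟨d, rfl⟩ := List.length_eq_one_iff.1 hD
    have := hDN d (List.mem_singleton_self d)
    exact ⟨d, this.1, this.2, Mv.refl _⟩
  | m + 1, [], hD, _, _, _ => by simp at hD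
  | m + 1, [d], hD, _, _, _ => by simp at hD
  | m + 1, d1 :: d2 :: D, hD, hDN, T, hT => by
    have hd1 := hDN d1 (by simp)
    have hd2 := hDN d2 (by simp)
    obtain ⟨x, hx, y, hy, e⟩ := kill2' hN hc hd1.1 hd1.2 hd2.1 hd2.2 (hds D ++ T) hT
    have e2 := Mv.cons (hd x y) (flat_right (Commute.one_right (1 : G)) (hds D) T)
    have e3 := e.trans e2
    have hg : gen (hds ((x, y) :: D) ++ (hd 1 1 :: T)) = ⊤ := by
      rw [← hT]
      exact e3.gen_eq.symm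
    obtain ⟨d, hd1', hd2', e4⟩ := chain_step hN hc m ((x, y) :: D) (by simpa using hD) (by
      intro p hp
      rcases List.mem_cons.1 hp with rfl | hp
      · exact ⟨hx, hy⟩
      · exact hDN p (by simp [hp])) (hd 1 1 :: T) hg
    refine ⟨d, hd1', hd2', ?_⟩
    have e5 : hds (List.replicate (m + 1) ((1 : G), (1 : G))) ++ T =
        hds (List.replicate m (1, 1)) ++ hd 1 1 :: T := by
      rw [List.replicate_succ', hds_append, List.append_assoc]
      rfl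
    rw [e5]
    exact e3.trans e4

/-- Commuting handles move freely. -/
theorem flat_list : ∀ (D : List (G × G)), (∀ p ∈ D, Commute p.1 p.2) → ∀ A B : List (Item G),
    Mv (hds D ++ (A ++ B)) (A ++ (hds D ++ B))
  | [], _, A, B => Mv.refl _
  | d :: D, h, A, B => by
    have h1 := Mv.cons (hd d.1 d.2) (flat_list D (fun p hp => h p (List.mem_cons_of_mem _ hp)) A B)
    exact h1.trans (flat_right (h d List.mem_cons_self) A (hds D ++ B))

end Chief

end Pool.Agent.HMv
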