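import Pool.Agent.Lib.MP_943dad_ag.HMv.Fin

/-!
The subgroup generated by a list of items, conjugation of commuting handles and sliding of
handles `(r, 1)` by its elements.
-/

namespace Pool.Agent.HMv

universe u v

open Item

section Gen

variable {G : Type u} [Group G]

/-- The entries of an item. -/
def Item.ent : Item G → Set G
  | hd x y => {x, y}
  | pt c => {c}

/-- The subgroup generated by the entries of a list of items. -/
def gen (L : List (Item G)) : Subgroup G := Subgroup.closure {z | ∃ p ∈ L, z ∈ p.ent}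

theorem ent_mem_gen {L : List (Item G)} {p : Item G} (hp : p ∈ L) {z : G} (hz : z ∈ p.ent) :
    z ∈ gen L := Subgroup.subset_closure ⟨p, hp, hz⟩

theorem gen_le {L : List (Item G)} {K : Subgroup G} (h : ∀ p ∈ L, ∀ z ∈ p.ent, z ∈ K) :
    gen L ≤ K := by
  unfold gen
  rw [Subgroup.closure_le]
  rintro z ⟨p, hp, hz⟩
  exact h p hp z hz

theorem gen_mono {L M : List (Item G)} (h : ∀ p ∈ L, p ∈ M) : gen L ≤ gen M :=
  gen_le fun p hp _ hz => ent_mem_gen (h p hp) hz

theorem exists_mp_subtype (K : Subgroup G) : ∀ (L : List (Item G)),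
    (∀ p ∈ L, ∀ z ∈ p.ent, z ∈ K) → ∃ B : List (Item K), mp K.subtype B = L
  | [], _ => ⟨[], rfl⟩
  | p :: L, h => by
    obtain ⟨B, hB⟩ := exists_mp_subtype K L fun q hq => h q (List.mem_cons_of_mem _ hq)
    have hp := h p List.mem_cons_self
    cases p with
    | hd x y =>
      refine ⟨hd ⟨x, hp x (Or.inl rfl)⟩ ⟨y, hp y (Or.inr rfl)⟩ :: B, ?_⟩
      rw [mp_cons, hB]
      rfl
    | pt c =>
      refine ⟨pt ⟨c, hp c rfl⟩ :: B, ?_⟩
      rw [mp_cons, hB]
      rfl

theorem mp_subtype_ent (K : Subgroup G) (B : List (Item K)) : ∀ p ∈ mp K.subtype B, ∀ z ∈ p.ent,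
    z ∈ K := by
  intro p hp z hz
  unfold mp at hp
  rw [List.mem_map] at hp
  obtain ⟨q, _, rfl⟩ := hp
  cases q with
  | hd x y =>
    rcases hz with rfl | hz
    · exact x.2
    · have : z = (y : G) := hz
      rw [this]
      exact y.2
  | pt c =>
    have : z = (c : G) := hz
    rw [this]
    exact c.2

theorem Mv.gen_le {L M : List (Item G)} (h : Mv L M) : gen M ≤ gen L := by
  obtain ⟨B, hB⟩ := exists_mp_subtype (gen L) L fun p hp z hz => ent_mem_gen hp hz
  rw [← hB] at h
  obtain ⟨B', _, hB'⟩ := Mv.lift _ h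
  rw [← hB']
  exact HMv.gen_le (mp_subtype_ent (gen L) B')

theorem Mv.gen_eq {L M : List (Item G)} (h : Mv L M) : gen L = gen M :=
  le_antisymm h.symm.gen_le h.gen_le

theorem flat_hd {r s : G} (h : Commute r s) (p q : G) (L : List (Item G)) :
    Mv (hd r s :: hd p q :: L) (hd p q :: hd r s :: L) := by
  have h1 := Mv.exch r s p q L
  have e : r * s * r⁻¹ * s⁻¹ = 1 := by
    rw [h.eq, mul_inv_cancel_right, mul_inv_cancel]
  rw [e] at h1
  simpa using h1

theorem flat_pt {r s : G} (h : Commute r s) (c : G) (L : List (Item G)) :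
    Mv (hd r s :: pt c :: L) (pt c :: hd r s :: L) := by
  have h1 := Mv.exchP r s c L
  have e : r * s * r⁻¹ * s⁻¹ = 1 := by
    rw [h.eq, mul_inv_cancel_right, mul_inv_cancel]
  rw [e] at h1
  simpa using h1

/-- A commuting handle moves freely. -/
theorem flat_right {r s : G} (h : Commute r s) : ∀ (A B : List (Item G)),
    Mv (hd r s :: (A ++ B)) (A ++ hd r s :: B)
  | [], B => Mv.refl _
  | hd p q :: A, B => (flat_hd h p q (A ++ B)).trans (Mv.cons _ (flat_right h A B))
  | pt c :: A, B => (flat_pt h c (A ++ B)).trans (Mv.cons _ (flat_right h A B))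

/-- Conjugation of commuting handles. -/
def cjK (T : List (Item G)) : Subgroup G where
  carrier := {u | ∀ r s : G, Commute r s →
    Mv (hd r s :: T) (hd (u * r * u⁻¹) (u * s * u⁻¹) :: T)}
  one_mem' := fun r s _ => by
    simpa using Mv.refl (hd r s :: T)
  mul_mem' := fun {a b} ha hb r s h => by
    have h1 := hb r s h
    have h2 := ha (b * r * b⁻¹) (b * s * b⁻¹) (by
      show b * r * b⁻¹ * (b * s * b⁻¹) = b * s * b⁻¹ * (b * r * b⁻¹)
      have e1 : b * r * b⁻¹ * (b * s * b⁻¹) = b * (r * s) * b⁻¹ := by group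
      have e2 : b * s * b⁻¹ * (b * r * b⁻¹) = b * (s * r) * b⁻¹ := by group
      rw [e1, e2, h.eq])
    have e1 : a * (b * r * b⁻¹) * a⁻¹ = a * b * r * (a * b)⁻¹ := by group
    have e2 : a * (b * s * b⁻¹) * a⁻¹ = a * b * s * (a * b)⁻¹ := by group
    rw [e1, e2] at h2
    exact h1.trans h2
  inv_mem' := fun {a} ha r s h => by
    have h1 := ha (a⁻¹ * r * a) (a⁻¹ * s * a) (by
      show a⁻¹ * r * a * (a⁻¹ * s * a) = a⁻¹ * s * a * (a⁻¹ * r * a)
      have e1 : a⁻¹ * r * a * (a⁻¹ * s * a) = a⁻¹ * (r * s) * a := by group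
      have e2 : a⁻¹ * s * a * (a⁻¹ * r * a) = a⁻¹ * (s * r) * a := by group
      rw [e1, e2, h.eq])
    have e1 : a * (a⁻¹ * r * a) * a⁻¹ = r := by group
    have e2 : a * (a⁻¹ * s * a) * a⁻¹ = s := by group
    rw [e1, e2] at h1
    rw [inv_inv]
    exact h1.symm

theorem commute_conj {r s : G} (h : Commute r s) (u : G) :
    Commute (u * r * u⁻¹) (u * s * u⁻¹) := by
  show u * r * u⁻¹ * (u * s * u⁻¹) = u * s * u⁻¹ * (u * r * u⁻¹)
  have e1 : u * r * u⁻¹ * (u * s * u⁻¹) = u * (r * s) * u⁻¹ := by group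
  have e2 : u * s * u⁻¹ * (u * r * u⁻¹) = u * (s * r) * u⁻¹ := by group
  rw [e1, e2, h.eq]

theorem cjK_hd1 (A B : List (Item G)) (p q : G) : q * p * q⁻¹ ∈ cjK (A ++ hd p q :: B) := by
  intro r s h
  have h1 := flat_right h A (hd p q :: B)
  have h2 := (flat_hd h p q B).app_left A
  have h3 := (Mv.push p q r s B).app_left A
  have e : r * s * r⁻¹ * s⁻¹ = 1 := by
    rw [h.eq, mul_inv_cancel_right, mul_inv_cancel]
  rw [e, inv_one, one_mul] at h3
  have h' := commute_conj h (q * p * q⁻¹)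
  have h4 := (flat_hd h' p q B).symm.app_left A
  have h5 := (flat_right h' A (hd p q :: B)).symm
  exact h1.trans (h2.trans (h3.trans (h4.trans h5)))

theorem cjK_hd2 (A B : List (Item G)) (p q : G) : q ∈ cjK (A ++ hd p q :: B) := by
  intro r s h
  have h0 : ∀ r s : G, Mv (hd r s :: (A ++ hd p q :: B)) (hd r s :: (A ++ hd (p * q * p⁻¹) p⁻¹ :: B)) :=
    fun r s => Mv.cons _ ((Mv.rot p q B).app_left A)
  have h1 := cjK_hd1 A B (p * q * p⁻¹) p⁻¹ r s h
  have e : p⁻¹ * (p * q * p⁻¹) * p⁻¹⁻¹ = q := by group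
  rw [e] at h1
  exact (h0 r s).trans (h1.trans (h0 _ _).symm)

theorem cjK_hd3 (A B : List (Item G)) (p q : G) : p ∈ cjK (A ++ hd p q :: B) := by
  have h1 := cjK_hd1 A B p q
  have h2 := cjK_hd2 A B p q
  have h3 := (cjK (A ++ hd p q :: B)).mul_mem ((cjK (A ++ hd p q :: B)).mul_mem
    ((cjK (A ++ hd p q :: B)).inv_mem h2) h1) h2
  have e : q⁻¹ * (q * p * q⁻¹) * q = p := by group
  rw [e] at h3
  exact h3

theorem cjK_pt (A B : List (Item G)) (c : G) : c ∈ cjK (A ++ pt c :: B) := by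
  have h0 : c⁻¹ ∈ cjK (A ++ pt c :: B) := by
    intro r s h
    have h1 := flat_right h A (pt c :: B)
    have h2 := (Mv.exchQ r s c B).app_left A
    have h' := commute_conj h c⁻¹
    rw [inv_inv] at h' ⊢
    have h4 := (flat_pt h' c B).symm.app_left A
    have h5 := (flat_right h' A (pt c :: B)).symm
    exact h1.trans (h2.trans (h4.trans h5))
  have := (cjK (A ++ pt c :: B)).inv_mem h0
  rwa [inv_inv] at this

theorem gen_le_cjK (T : List (Item G)) : gen T ≤ cjK T := by
  apply gen_le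
  intro p hp z hz
  obtain ⟨A, B, rfl⟩ := List.append_of_mem hp
  cases p with
  | hd x y =>
    rcases hz with rfl | hz
    · exact cjK_hd3 A B _ y
    · have : z = y := hz
      rw [this]
      exact cjK_hd2 A B x y
  | pt c =>
    have : z = c := hz
    rw [this]
    exact cjK_pt A B c

/-- A commuting handle can be conjugated by every element generated by the other items. -/
theorem flat_conj {T : List (Item G)} {u : G} (hu : u ∈ gen T) {r s : G} (h : Commute r s) :
    Mv (hd r s :: T) (hd (u * r * u⁻¹) (u * s * u⁻¹) :: T) := gen_le_cjK T hu r s h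

/-- Sliding of handles `(r, 1)`. -/
def slK (T : List (Item G)) : Subgroup G where
  carrier := {w | ∀ r : G, Mv (hd r 1 :: T) (hd (w * r) 1 :: T)}
  one_mem' := fun r => by
    simpa using Mv.refl (hd r 1 :: T)
  mul_mem' := fun {a b} ha hb r => by
    rw [mul_assoc]
    exact (hb r).trans (ha (b * r))
  inv_mem' := fun {a} ha r => by
    have h1 := ha (a⁻¹ * r)
    rw [mul_inv_cancel_left] at h1
    exact h1.symm

theorem slK_hd2 (A B : List (Item G)) (p q : G) : q ∈ slK (A ++ hd p q :: B) := by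
  intro r
  have h1 := flat_right (Commute.one_right r) A (hd p q :: B)
  have h2 := (flat_hd (Commute.one_right r) p q B).app_left A
  have h3 := Mv.dd p q r 1 1 B
  have e1 : q⁻¹ * r * 1 * r⁻¹ = q⁻¹ := by group
  rw [e1] at h3
  have e2 : (q⁻¹) ^ (-1 : ℤ) * q * (q⁻¹) ^ (1 : ℤ) = q := by group
  have e3 : (q⁻¹) ^ (-1 : ℤ) * r = q * r := by group
  rw [e2, e3] at h3
  have h4 := Mv.twist (p * (q⁻¹) ^ (1 : ℤ)) q 1 (hd (q * r) 1 :: B)
  have e4 : p * (q⁻¹) ^ (1 : ℤ) * q ^ (1 : ℤ) = p := by group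
  rw [e4] at h4
  have h5 := ((h3.trans h4).app_left A)
  have h6 := (flat_hd (Commute.one_right (q * r)) p q B).symm.app_left A
  have h7 := (flat_right (Commute.one_right (q * r)) A (hd p q :: B)).symm
  exact h1.trans (h2.trans (h5.trans (h6.trans h7)))

theorem slK_hd3 (A B : List (Item G)) (p q : G) : p ∈ slK (A ++ hd p q :: B) := by
  have h0 : ∀ r : G, Mv (hd r 1 :: (A ++ hd p q :: B)) (hd r 1 :: (A ++ hd (p * q * p⁻¹) p⁻¹ :: B)) :=
    fun r => Mv.cons _ ((Mv.rot p q B).app_left A)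
  have h1 : p⁻¹ ∈ slK (A ++ hd p q :: B) := by
    intro r
    have h1 := slK_hd2 A B (p * q * p⁻¹) p⁻¹ r
    exact (h0 r).trans (h1.trans (h0 _).symm)
  have := (slK (A ++ hd p q :: B)).inv_mem h1
  rwa [inv_inv] at this

theorem slK_pt (A B : List (Item G)) (c : G) : c ∈ slK (A ++ pt c :: B) := by
  -- multiplication by `c` from the right
  have hR : ∀ r : G, Mv (hd r 1 :: (A ++ pt c :: B)) (hd (r * c) 1 :: (A ++ pt c :: B)) := by
    intro r
    have h1 := flat_right (Commute.one_right r) A (pt c :: B)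
    have h2 := Mv.dp r 1 c 1 B
    have e1 : (1 : G)⁻¹ * c = c := by group
    rw [e1] at h2
    have e2 : c ^ (-1 : ℤ) * 1 * c ^ (1 : ℤ) = 1 := by group
    have e3 : c ^ (-1 : ℤ) * c * c ^ (1 : ℤ) = c := by group
    rw [e2, e3, zpow_one] at h2
    have h3 := h2.app_left A
    have h4 := (flat_right (Commute.one_right (r * c)) A (pt c :: B)).symm
    exact h1.trans (h3.trans h4)
  intro r
  have h1 := hR r
  have h2 := cjK_pt A B c (r * c) 1 (Commute.one_right _)
  have e1 : c * (r * c) * c⁻¹ = c * r := by group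
  have e2 : c * 1 * c⁻¹ = 1 := by group
  rw [e1, e2] at h2
  exact h1.trans h2

theorem gen_le_slK (T : List (Item G)) : gen T ≤ slK T := by
  apply gen_le
  intro p hp z hz
  obtain ⟨A, B, rfl⟩ := List.append_of_mem hp
  cases p with
  | hd x y =>
    rcases hz with rfl | hz
    · exact slK_hd3 A B _ y
    · have : z = y := hz
      rw [this]
      exact slK_hd2 A B x y
  | pt c =>
    have : z = c := hz
    rw [this]
    exact slK_pt A B c

/-- A handle `(r, 1)` can be multiplied by every element generated by the other items. -/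
theorem slide_gen {T : List (Item G)} {w : G} (hw : w ∈ gen T) (r : G) :
    Mv (hd r 1 :: T) (hd (w * r) 1 :: T) := gen_le_slK T hw r

end Gen

end Pool.Agent.HMv
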